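import Pool.Agent.N482.CHDefs
import Pool.Agent.Results.MP_293d80_gt.CounterexampleUnderCH

set_option autoImplicit false

open Set Topology Cardinal

namespace Pool.Agent.Results.MP_293d80_gt.ConsistentlyNotAdditive

open Pool.Agent.Helper639.ForceCH (OmegaOnePreserved CHHolds)
open Pool.Agent.N482 (CH)

/-- `𝒰` is a large cover of the set of reals `X` by open subsets of `X`. -/
def IsLargeOpenCover {X : Set ℝ} (𝒰 : Set (Set X)) : Prop :=
  (∀ U ∈ 𝒰, IsOpen U) ∧ Set.univ ∉ 𝒰 ∧ ∀ x : X, {U | U ∈ 𝒰 ∧ x ∈ U}.Infinite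

/-- The property Split(Λ,Λ) of a set of reals: every large open cover is the union of two disjoint
subfamilies, each of which is again a large open cover. -/
def SplitLambda (X : Set ℝ) : Prop :=
  ∀ 𝒰 : Set (Set X), IsLargeOpenCover 𝒰 →
    ∃ 𝒱 𝒲 : Set (Set X), 𝒱 ∪ 𝒲 = 𝒰 ∧ Disjoint 𝒱 𝒲 ∧ IsLargeOpenCover 𝒱 ∧ IsLargeOpenCover 𝒲

/-- (1) Some forcing notion preserves `ω₁` and forces the continuum hypothesis. (2) The continuum
hypothesis implies that two sets of reals have the property Split(Λ,Λ) and their union does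
not. -/
theorem result :
    (∃ (P : Type) (_ : Preorder P), Nonempty P ∧
      ∀ p : P, p ∈ OmegaOnePreserved P ∧ p ∈ CHHolds P) ∧
    (CH → ∃ X Y : Set ℝ, SplitLambda X ∧ SplitLambda Y ∧ ¬ SplitLambda (X ∪ Y)) :=
  ⟨Pool.Agent.N482.ch_forced, fun h =>
    Pool.Agent.Results.MP_293d80_gt.CounterexampleUnderCH.result (Pool.Agent.N482.ch_iff.1 h)⟩

end Pool.Agent.Results.MP_293d80_gt.ConsistentlyNotAdditive
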